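import Pool.Agent.L7h3.SC.All

set_option autoImplicit false

/-!
# Two colours suffice in every strictly convex plane

Let `N` be a strictly convex norm on `ℝ^n` and `M` an infinite subset of `ℝ^n`. If `n = 2`, or if `M` contains
infinitely many points of a line, then `χ(ℝ^n, N, M) = 2`: there is a colouring of `ℝ^n` with two
colours without a monochromatic isometric copy of `M` (and one colour is not enough).

The proof. A family of countable infinite sets such that every set of `k` points is contained in only countably
many of them has property B (transfinite induction, in the manner of Erdős and Hajnal). Take a sequence `x` in `M`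
which is collinear, or converges to a point `l`, or goes to infinity in a direction `u`, in the last two cases
without collinear triples. Let three points of a copy `p` be given. Then every other point `p j` has only
finitely many positions, and the limit of `p` (the limit direction) has only finitely many. Two different copies with the same limit
differ in only finitely many points: if `p j ≠ p' j` for infinitely many `j`, then
for every common point `q` of the two copies the vector from `q` to the limit `l'` is Birkhoff orthogonal to the limit `w` of the directions of `p j - p' j`;
in a strictly convex plane the vectors with this property are proportional, so all common points are on a line through `l'`,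
contradiction. If the copies go to infinity the common points are on a line in the limit
direction (this needs an estimate for the bisectors). So only countably many copies contain the three points.
-/

namespace Pool.Agent.Results.MP_0e6637_co.StrictlyConvexPlanes

/-- Let `E` be a finite-dimensional strictly convex real normed space and `M` an infinite subset of `E`. Suppose that
`E` is a plane, or that `M` contains an infinite collinear set. Then there is a colouring of `E` with two
colours such that no isometric copy `f(M)` of `M` is monochromatic, and there is no such
colouring with one colour: `χ(E, M) = 2`. -/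
theorem result (E : Type) [NormedAddCommGroup E] [NormedSpace ℝ E] [FiniteDimensional ℝ E]
    [StrictConvexSpace ℝ E] (M : Set E) (hM : M.Infinite)
    (h : Module.finrank ℝ E = 2 ∨ ∃ L ⊆ M, L.Infinite ∧ Collinear ℝ L) :
    (∃ c : E → Fin 2, ∀ f : E → E,
        (∀ x ∈ M, ∀ y ∈ M, dist (f x) (f y) = dist x y) →
        ∃ x ∈ M, ∃ y ∈ M, c (f x) ≠ c (f y)) ∧
    ¬ (∃ c : E → Fin 1, ∀ f : E → E,
        (∀ x ∈ M, ∀ y ∈ M, dist (f x) (f y) = dist x y) →
        ∃ x ∈ M, ∃ y ∈ M, c (f x) ≠ c (f y)) := by
  constructor
  · have key : ∃ c : E → Bool, ∀ f : E → E, (∀ x ∈ M, ∀ y ∈ M, dist (f x) (f y) = dist x y) →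
        ∃ x ∈ M, ∃ y ∈ M, c (f x) ≠ c (f y) := by
      rcases h with h | ⟨L, hLM, hL, hcol⟩
      · exact Pool.Agent.L7h3.SC.plane E h M hM
      · exact Pool.Agent.L7h3.SC.line E M L hLM hL hcol
    obtain ⟨c, hc⟩ := key
    refine ⟨fun x => if c x then 1 else 0, fun f hf => ?_⟩
    obtain ⟨x, hx, y, hy, hxy⟩ := hc f hf
    refine ⟨x, hx, y, hy, ?_⟩
    cases h1 : c (f x) <;> cases h2 : c (f y) <;> simp_all
  · rintro ⟨c, hc⟩
    obtain ⟨x, _, y, _, hxy⟩ := hc id (fun _ _ _ _ => rfl)
    exact hxy (Subsingleton.elim _ _)

end Pool.Agent.Results.MP_0e6637_co.StrictlyConvexPlanes
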